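import Pool.Agent.KTB.StmtsKB

/-!
A cover gives a rank function with circuits (row RKA of squad KTB, problem MP_b48657_ag).
-/

set_option autoImplicit false

namespace Pool.Agent.KTB.H14

open Pool.Agent.KTB Finset
open scoped Classical

theorem rka (h1 : IdnStmt) (h2 : DimStmt) : RkaStmt := by
  intro ι T _ D S K μ hI
  obtain ⟨d1, d2, d3, d4, -⟩ := h2 ι T D
  obtain ⟨-, i2, -, -, -⟩ := h1 ι T D S
  have le : ∀ A : Finset ι, D.nul (S \ A) ≤ D.nul S := fun A => d1 _ _ sdiff_subset
  have hone : ∀ a, D.rk S {a} ≤ 1 := by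
    intro a
    have e1 : D.nul S ≤ D.nul (insert a (S \ {a})) := by
      apply d1
      intro b hb
      by_cases hba : b = a
      · simp [hba]
      · simp [hb, hba]
    have e2 := d3 (S \ {a}) a
    unfold Dat.rk
    omega
  refine ⟨⟨?_, ?_, ?_, hone, ?_, ?_, hI.two, ?_⟩, ?_⟩
  · unfold Dat.rk
    rw [sdiff_empty, Nat.sub_self]
  · intro A B hAB
    unfold Dat.rk
    exact Nat.sub_le_sub_left (d1 _ _ (sdiff_subset_sdiff (Subset.refl S) hAB)) _
  · intro A B
    have e1 := d2 (S \ A) (S \ B)
    have e2 : S \ (A ∪ B) = (S \ A) ∩ (S \ B) := by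
      ext b; simp only [mem_sdiff, mem_union, mem_inter]; tauto
    have e3 : S \ (A ∩ B) = (S \ A) ∪ (S \ B) := by
      ext b; simp only [mem_sdiff, mem_union, mem_inter]; tauto
    have l1 := le (A ∪ B)
    have l2 := le (A ∩ B)
    have l3 := le A
    have l4 := le B
    unfold Dat.rk
    rw [e2] at l1 ⊢
    rw [e3] at l2 ⊢
    omega
  · intro k hk y hy
    have hy' : y ∈ S ∧ D.x k y ≠ 0 := by simpa [Dat.E] using hy
    have hN : y ∈ D.N S := by
      by_contra hcon
      exact hy'.2 (hI.out y hy'.1 hcon k hk)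
    obtain ⟨-, ρ, hρ, hρy⟩ : y ∈ S ∧ ∃ ρ ∈ D.R S, ρ y ≠ 0 := by simpa [Dat.N] using hN
    have e1 : D.nul (S \ {y}) ≠ D.nul S := by
      intro he
      exact hρy ((d4 _ _ sdiff_subset).1 he ρ hρ y hy'.1 (by simp))
    have e2 := hone y
    have e3 := le {y}
    unfold Dat.rk at e2 ⊢
    omega
  · intro k hk y hy
    have hy' : y ∈ S ∧ D.x k y ≠ 0 := by simpa [Dat.E] using hy
    have e1 : D.nul (S \ D.E S k) = D.nul (S \ (D.E S k).erase y) := by
      refine (d4 _ _ (sdiff_subset_sdiff (Subset.refl S) (erase_subset _ _))).2 ?_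
      intro ρ hρ b hb hb'
      have hb1 : b ∈ S ∧ ¬ (b ≠ y ∧ b ∈ D.E S k) := by simpa using hb
      have hb2 : b ∈ D.E S k := by
        by_contra hcon
        exact hb' (mem_sdiff.2 ⟨hb1.1, hcon⟩)
      have hby : b = y := by
        by_contra hcon
        exact hb1.2 ⟨hcon, hb2⟩
      rw [hby]
      have hρS : ρ ∈ D.R S := by
        refine ⟨hρ.1, fun a ha => hρ.2 a ?_⟩
        intro h
        exact ha (mem_sdiff.1 h).1
      have hsum := i2 ρ hρS k
      rw [Finset.sum_eq_single y] at hsum
      · rcases mul_eq_zero.1 hsum with h | h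
        · exact absurd (by exact_mod_cast h) hy'.2
        · exact h
      · intro a ha hay
        by_cases hak : D.x k a = 0
        · rw [hak]; simp
        · have : ρ a = 0 := by
            apply hρ.2 a
            intro h
            exact (mem_sdiff.1 h).2 (mem_erase.2 ⟨hay, by simp [Dat.E, ha, hak]⟩)
          rw [this, mul_zero]
      · intro h
        exact absurd hy'.1 h
    unfold Dat.rk
    rw [e1]
  · intro C hC hCn
    have e1 := hI.irr C hC hCn
    have e2 : C.biUnion (D.E S) = D.EK S C := by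
      ext b
      simp only [Dat.E, Dat.EK, mem_biUnion, mem_filter]
      constructor
      · rintro ⟨k, hk, hb, hx⟩
        exact ⟨hb, k, hk, hx⟩
      · rintro ⟨hb, k, hk, hx⟩
        exact ⟨k, hk, hb, hx⟩
    have e3 : rexc (D.E S) C = D.exc S C := rfl
    unfold Dat.rk
    rw [e2, e3]
    omega
  · intro hμ
    by_contra hcon
    push Not at hcon
    have e1 : D.exc S K = 0 := by
      unfold Dat.exc
      apply Finset.sum_eq_zero
      intro k hk
      have := hcon k hk
      omega
    have e2 := hI.sum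
    omega

end Pool.Agent.KTB.H14
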